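import Mathlib
import Pool.Agent.Q3.PrimHopf

/-! Finite-dimensional Hopf algebras `A ⊆ E` with infinite factorization index. -/

set_option autoImplicit false
set_option linter.unusedSectionVars false
set_option linter.unusedSimpArgs false

namespace Pool.Agent.Results.MP_d8e1db_al.InfiniteIndex

open TensorProduct

/-- `i : A → E` and `j : H → E` are embeddings of Hopf algebras (injective bialgebra maps) and
multiplication `A ⊗ H → E`, `a ⊗ h ↦ i a * j h`, is bijective: the image of `H` is a complement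
of the image of `A` in `E`. -/
def IsComplement {k A H E : Type} [Field k] [Ring A] [HopfAlgebra k A] [Ring H] [HopfAlgebra k H]
    [Ring E] [HopfAlgebra k E] (i : BialgHom k A E) (j : BialgHom k H E) : Prop :=
  Function.Injective i ∧ Function.Injective j ∧
    Function.Bijective (TensorProduct.lift
      (((LinearMap.mul k E).comp i.toLinearMap).compl₂ j.toLinearMap))

section specific

open Q3.PrimHopf

variable {k : Type} [Field k] [CharP k 2]

/-- `A`: one generator `m` with `m ^ 2 = 0` -/
def dA (k : Type) [Field k] : Data k (Fin 1) := ⟨fun _ _ _ => 0, fun _ _ => 0⟩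

/-- `H β`: two commuting generators `x, z` with `x ^ 2 = x`, `z ^ 2 = β x` -/
def dH {k : Type} [Field k] (β : k) : Data k (Fin 2) :=
  ⟨fun _ _ _ => 0, fun i l => if l = 0 then (if i = 0 then 1 else β) else 0⟩

/-- `E`: generators `x, y, m` with `x` central, `y m + m y = x`, `x ^ 2 = x`,
`y ^ 2 = 0 = m ^ 2` -/
def dE (k : Type) [Field k] : Data k (Fin 3) :=
  ⟨fun i j l => if l = 0 ∧ ((i = 1 ∧ j = 2) ∨ (i = 2 ∧ j = 1)) then 1 else 0,
    fun i l => if l = 0 ∧ i = 0 then 1 else 0⟩

@[simp] lemma dA_c (i j l : Fin 1) : (dA k).c i j l = 0 := rfl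
@[simp] lemma dA_d (i l : Fin 1) : (dA k).d i l = 0 := rfl
@[simp] lemma dH_c (β : k) (i j l : Fin 2) : (dH β).c i j l = 0 := rfl
@[simp] lemma dH_d (β : k) (i l : Fin 2) :
    (dH β).d i l = if l = 0 then (if i = 0 then 1 else β) else 0 := rfl
@[simp] lemma dE_c (i j l : Fin 3) :
    (dE k).c i j l = if l = 0 ∧ ((i = 1 ∧ j = 2) ∨ (i = 2 ∧ j = 1)) then 1 else 0 := rfl
@[simp] lemma dE_d (i l : Fin 3) : (dE k).d i l = if l = 0 ∧ i = 0 then 1 else 0 := rfl

lemma add_self_E (v : U (dE k)) : v + v = 0 := two_zero (k := k) v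

lemma comm_of {v w : U (dE k)} (h : v * w + w * v = 0) : v * w = w * v := by
  have := congrArg (· + w * v) h
  simp only [add_assoc, add_self_E, add_zero, zero_add] at this
  exact this

lemma E_xy : z (dE k) 0 * z (dE k) 1 = z (dE k) 1 * z (dE k) 0 := by
  apply comm_of
  rw [z_br]
  simp

lemma E_xm : z (dE k) 0 * z (dE k) 2 = z (dE k) 2 * z (dE k) 0 := by
  apply comm_of
  rw [z_br]
  simp

lemma E_ym : z (dE k) 1 * z (dE k) 2 + z (dE k) 2 * z (dE k) 1 = z (dE k) 0 := by
  rw [z_br]
  simp

lemma E_xx : z (dE k) 0 * z (dE k) 0 = z (dE k) 0 := by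
  rw [z_sq]
  simp

lemma E_yy : z (dE k) 1 * z (dE k) 1 = 0 := by
  rw [z_sq]
  simp

lemma E_mm : z (dE k) 2 * z (dE k) 2 = 0 := by
  rw [z_sq]
  simp

lemma H_xx (β : k) : z (dH β) 0 * z (dH β) 0 = z (dH β) 0 := by
  rw [z_sq]
  simp

lemma H_zz (β : k) : z (dH β) 1 * z (dH β) 1 = β • z (dH β) 0 := by
  rw [z_sq]
  simp

lemma H_xz (β : k) : z (dH β) 0 * z (dH β) 1 = z (dH β) 1 * z (dH β) 0 := by
  have h : z (dH β) 0 * z (dH β) 1 + z (dH β) 1 * z (dH β) 0 = 0 := by
    rw [z_br]
    simp
  have := congrArg (· + z (dH β) 1 * z (dH β) 0) h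
  simp only [add_assoc, two_zero (k := k), add_zero, zero_add] at this
  exact this

lemma A_mm : z (dA k) 0 * z (dA k) 0 = 0 := by
  rw [z_sq]
  simp

/-- the inclusion of `A` -/
noncomputable def iAlg (k : Type) [Field k] [CharP k 2] : U (dA k) →ₐ[k] U (dE k) :=
  lift (fun _ => z (dE k) 2) (fun _ _ => by rw [E_mm]; simp)
    (fun _ => by rw [E_mm]; simp)

lemma iAlg_z (i : Fin 1) : iAlg k (z (dA k) i) = z (dE k) 2 := lift_z _ _ _ _

/-- the inclusion of `H β` -/
noncomputable def jAlg (β : k) : U (dH β) →ₐ[k] U (dE k) :=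
  lift (fun i => if i = 0 then z (dE k) 0 else z (dE k) 1 + β • z (dE k) 2)
    (by
      have h1 : z (dE k) 0 * (z (dE k) 1 + β • z (dE k) 2)
          = (z (dE k) 1 + β • z (dE k) 2) * z (dE k) 0 := by
        rw [mul_add, add_mul, E_xy, mul_smul_comm, smul_mul_assoc, E_xm]
      intro i j
      fin_cases i <;> fin_cases j <;> simp [h1, add_self_E])
    (by
      intro i
      fin_cases i
      · simp [E_xx]
      · have : (z (dE k) 1 + β • z (dE k) 2) * (z (dE k) 1 + β • z (dE k) 2)
            = β • (z (dE k) 1 * z (dE k) 2 + z (dE k) 2 * z (dE k) 1) := by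
          rw [add_mul, mul_add, mul_add, E_yy, smul_mul_smul_comm, E_mm, smul_zero, zero_add,
            add_zero, mul_smul_comm, smul_mul_assoc, smul_add]
        simp [this, E_ym])

lemma jAlg_x (β : k) : jAlg β (z (dH β) 0) = z (dE k) 0 := by
  rw [jAlg, lift_z]
  simp

lemma jAlg_z (β : k) : jAlg β (z (dH β) 1) = z (dE k) 1 + β • z (dE k) 2 := by
  rw [jAlg, lift_z]
  simp

/-- the inclusion of `A` as a bialgebra map -/
noncomputable def iBi (k : Type) [Field k] [CharP k 2] : BialgHom k (U (dA k)) (U (dE k)) :=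
  BialgHom.ofAlgHom (iAlg k)
    (by
      apply Q3.PrimHopf.ext
      intro i
      change counitU (iAlg k (z (dA k) i)) = counitU (z (dA k) i)
      rw [iAlg_z, counitU_z, counitU_z])
    (by
      apply Q3.PrimHopf.ext
      intro i
      change (Algebra.TensorProduct.map (iAlg k) (iAlg k)) (comulU (z (dA k) i))
        = comulU (iAlg k (z (dA k) i))
      rw [iAlg_z, comulU_z, comulU_z, map_add, Algebra.TensorProduct.map_tmul,
        Algebra.TensorProduct.map_tmul, iAlg_z, map_one])

/-- the inclusion of `H β` as a bialgebra map -/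
noncomputable def jBi (β : k) : BialgHom k (U (dH β)) (U (dE k)) :=
  BialgHom.ofAlgHom (jAlg β)
    (by
      apply Q3.PrimHopf.ext
      intro i
      change counitU (jAlg β (z (dH β) i)) = counitU (z (dH β) i)
      rw [counitU_z]
      fin_cases i
      · change counitU (jAlg β (z (dH β) 0)) = 0
        rw [jAlg_x, counitU_z]
      · change counitU (jAlg β (z (dH β) 1)) = 0
        rw [jAlg_z, map_add, map_smul, counitU_z, counitU_z, smul_zero, add_zero])
    (by
      apply Q3.PrimHopf.ext
      intro i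
      change (Algebra.TensorProduct.map (jAlg β) (jAlg β)) (comulU (z (dH β) i))
        = comulU (jAlg β (z (dH β) i))
      rw [comulU_z, map_add, Algebra.TensorProduct.map_tmul,
        Algebra.TensorProduct.map_tmul, map_one]
      fin_cases i
      · change jAlg β (z (dH β) 0) ⊗ₜ[k] 1 + 1 ⊗ₜ jAlg β (z (dH β) 0)
          = comulU (jAlg β (z (dH β) 0))
        rw [jAlg_x, comulU_z]
      · change jAlg β (z (dH β) 1) ⊗ₜ[k] 1 + 1 ⊗ₜ jAlg β (z (dH β) 1)
          = comulU (jAlg β (z (dH β) 1))
        rw [jAlg_z, map_add, map_smul, comulU_z, comulU_z, TensorProduct.add_tmul,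
          TensorProduct.tmul_add, ← TensorProduct.smul_tmul', TensorProduct.tmul_smul, smul_add]
        abel)

lemma A_top : Submodule.span k (Set.range ![(1 : U (dA k)), z (dA k) 0]) = ⊤ := by
  set M := Submodule.span k (Set.range ![(1 : U (dA k)), z (dA k) 0]) with hM
  have m0 : (1 : U (dA k)) ∈ M := Submodule.subset_span ⟨0, rfl⟩
  have m1 : z (dA k) 0 ∈ M := Submodule.subset_span ⟨1, rfl⟩
  apply eq_top_of_left M m0
  intro i a ha
  have hi : i = 0 := Subsingleton.elim _ _
  subst hi
  induction ha using Submodule.span_induction with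
  | mem x hx =>
    obtain ⟨l, rfl⟩ := hx
    fin_cases l
    · simpa using m1
    · change z (dA k) 0 * z (dA k) 0 ∈ M
      rw [A_mm]; exact M.zero_mem
  | zero => rw [mul_zero]; exact M.zero_mem
  | add x y _ _ hx hy => rw [mul_add]; exact M.add_mem hx hy
  | smul r x _ hx => rw [mul_smul_comm]; exact M.smul_mem r hx

lemma H_top (β : k) : Submodule.span k (Set.range ![(1 : U (dH β)), z (dH β) 0, z (dH β) 1,
    z (dH β) 0 * z (dH β) 1]) = ⊤ := by
  set M := Submodule.span k (Set.range ![(1 : U (dH β)), z (dH β) 0, z (dH β) 1,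
    z (dH β) 0 * z (dH β) 1]) with hM
  have m0 : (1 : U (dH β)) ∈ M := Submodule.subset_span ⟨0, rfl⟩
  have m1 : z (dH β) 0 ∈ M := Submodule.subset_span ⟨1, rfl⟩
  have m2 : z (dH β) 1 ∈ M := Submodule.subset_span ⟨2, rfl⟩
  have m3 : z (dH β) 0 * z (dH β) 1 ∈ M := Submodule.subset_span ⟨3, rfl⟩
  apply eq_top_of_left M m0
  intro i a ha
  induction ha using Submodule.span_induction with
  | mem x hx =>
    obtain ⟨l, rfl⟩ := hx
    fin_cases i <;> fin_cases l
    · simpa using m1
    · change z (dH β) 0 * z (dH β) 0 ∈ M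
      rw [H_xx]; exact m1
    · exact m3
    · change z (dH β) 0 * (z (dH β) 0 * z (dH β) 1) ∈ M
      rw [← mul_assoc, H_xx]; exact m3
    · simpa using m2
    · change z (dH β) 1 * z (dH β) 0 ∈ M
      rw [← H_xz]; exact m3
    · change z (dH β) 1 * z (dH β) 1 ∈ M
      rw [H_zz]; exact M.smul_mem _ m1
    · change z (dH β) 1 * (z (dH β) 0 * z (dH β) 1) ∈ M
      rw [← mul_assoc, ← H_xz, mul_assoc, H_zz, mul_smul_comm, H_xx]
      exact M.smul_mem _ m1
  | zero => rw [mul_zero]; exact M.zero_mem
  | add x y _ _ hx hy => rw [mul_add]; exact M.add_mem hx hy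
  | smul r x _ hx => rw [mul_smul_comm]; exact M.smul_mem r hx

instance A_fin : Module.Finite k (U (dA k)) :=
  Module.Finite.of_fg_top ⟨_, by rw [← A_top]; exact congrArg _ (Set.Finite.coe_toFinset (Set.finite_range _))⟩

instance H_fin (β : k) : Module.Finite k (U (dH β)) :=
  Module.Finite.of_fg_top ⟨_, by rw [← H_top β]; exact congrArg _ (Set.Finite.coe_toFinset (Set.finite_range _))⟩

lemma A_rank : Module.finrank k (U (dA k)) ≤ 2 := by
  have := finrank_range_le_card (R := k) ![(1 : U (dA k)), z (dA k) 0]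
  rw [Set.finrank, A_top, finrank_top] at this
  simpa using this

lemma H_rank (β : k) : Module.finrank k (U (dH β)) ≤ 4 := by
  have := finrank_range_le_card (R := k) ![(1 : U (dH β)), z (dH β) 0, z (dH β) 1,
    z (dH β) 0 * z (dH β) 1]
  rw [Set.finrank, H_top, finrank_top] at this
  simpa using this

/-- the multiplication map -/
noncomputable def mu (β : k) : U (dA k) ⊗[k] U (dH β) →ₗ[k] U (dE k) :=
  TensorProduct.lift
    (((LinearMap.mul k (U (dE k))).comp (iBi k).toLinearMap).compl₂ (jBi β).toLinearMap)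

lemma mu_tmul (β : k) (a : U (dA k)) (h : U (dH β)) : mu β (a ⊗ₜ h) = iAlg k a * jAlg β h := rfl

lemma mu_surj (β : k) : Function.Surjective (mu β) := by
  rw [← LinearMap.range_eq_top]
  have hmem : ∀ a h, iAlg k a * jAlg β h ∈ LinearMap.range (mu β) :=
    fun a h => ⟨a ⊗ₜ h, mu_tmul β a h⟩
  have hy : z (dE k) 1 = jAlg β (z (dH β) 1) + β • z (dE k) 2 := by
    rw [jAlg_z, add_assoc, add_self_E, add_zero]
  have hm : z (dE k) 2 = iAlg k (z (dA k) 0) := (iAlg_z 0).symm
  have hx : z (dE k) 0 = jAlg β (z (dH β) 0) := (jAlg_x β).symm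
  apply eq_top_of_left
  · have := hmem 1 1
    simpa using this
  · rintro i _ ⟨t, rfl⟩
    induction t with
    | zero => rw [map_zero, mul_zero]; exact Submodule.zero_mem _
    | add x y hx hy => rw [map_add, mul_add]; exact Submodule.add_mem _ hx hy
    | tmul a h =>
      rw [mu_tmul]
      have ha : a ∈ Submodule.span k (Set.range ![(1 : U (dA k)), z (dA k) 0]) := by
        rw [A_top]; trivial
      induction ha using Submodule.span_induction with
      | zero => rw [map_zero, zero_mul, mul_zero]; exact Submodule.zero_mem _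
      | add x y _ _ hx hy =>
        rw [map_add, add_mul, mul_add]; exact Submodule.add_mem _ hx hy
      | smul r x _ hx =>
        rw [map_smul, smul_mul_assoc, mul_smul_comm]; exact Submodule.smul_mem _ r hx
      | mem a ha =>
        obtain ⟨l, rfl⟩ := ha
        fin_cases l
        · -- `a = 1`
          change z (dE k) i * (iAlg k 1 * jAlg β h) ∈ _
          rw [map_one, one_mul]
          fin_cases i
          · change z (dE k) 0 * jAlg β h ∈ _
            rw [hx, ← map_mul]
            have := hmem 1 (z (dH β) 0 * h)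
            rwa [map_one, one_mul] at this
          · change z (dE k) 1 * jAlg β h ∈ _
            rw [hy, add_mul, smul_mul_assoc, ← map_mul, hm]
            refine Submodule.add_mem _ ?_ (Submodule.smul_mem _ _ (hmem _ _))
            have := hmem 1 (z (dH β) 1 * h)
            rwa [map_one, one_mul] at this
          · change z (dE k) 2 * jAlg β h ∈ _
            rw [hm]
            exact hmem _ _
        · -- `a = m`
          change z (dE k) i * (iAlg k (z (dA k) 0) * jAlg β h) ∈ _
          rw [← hm]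
          fin_cases i
          · change z (dE k) 0 * (z (dE k) 2 * jAlg β h) ∈ _
            rw [← mul_assoc, E_xm, mul_assoc, hx, hm, ← map_mul]
            exact hmem _ _
          · change z (dE k) 1 * (z (dE k) 2 * jAlg β h) ∈ _
            have e : z (dE k) 1 * z (dE k) 2 = z (dE k) 2 * z (dE k) 1 + z (dE k) 0 := by
              rw [← E_ym, add_comm (z (dE k) 1 * z (dE k) 2), ← add_assoc, add_self_E, zero_add]
            rw [← mul_assoc, e, add_mul]
            refine Submodule.add_mem _ ?_ ?_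
            · rw [mul_assoc, hy, add_mul, mul_add, smul_mul_assoc, mul_smul_comm,
                ← mul_assoc (z (dE k) 2) (z (dE k) 2), E_mm, zero_mul, smul_zero, add_zero, hm,
                ← map_mul]
              exact hmem _ _
            · rw [hx, ← map_mul]
              have := hmem 1 (z (dH β) 0 * h)
              rwa [map_one, one_mul] at this
          · change z (dE k) 2 * (z (dE k) 2 * jAlg β h) ∈ _
            rw [← mul_assoc, E_mm, zero_mul]
            exact Submodule.zero_mem _

/-- first representation of `E` -/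
noncomputable def rho1 (k : Type) [Field k] [CharP k 2] :
    U (dE k) →ₐ[k] Matrix (Fin 2) (Fin 2) k :=
  lift (fun i => if i = 0 then !![1, 0; 0, 1] else if i = 1 then !![0, 1; 0, 0] else !![0, 0; 1, 0])
    (by
      have h2 : (1 : k) + 1 = 0 := two_zero (k := k) 1
      intro i j
      fin_cases i <;> fin_cases j <;> ext a b <;> fin_cases a <;> fin_cases b <;>
        simp [Fin.sum_univ_three, h2])
    (by
      intro i
      fin_cases i <;> ext a b <;> fin_cases a <;> fin_cases b <;>
        simp [Fin.sum_univ_three])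

/-- second representation of `E` -/
noncomputable def rho2 (k : Type) [Field k] [CharP k 2] :
    U (dE k) →ₐ[k] Matrix (Fin 4) (Fin 4) k :=
  lift (fun i => if i = 0 then 0 else if i = 1 then !![0, 0, 0, 0; 1, 0, 0, 0; 0, 0, 0, 0; 0, 0, 1, 0]
      else !![0, 0, 0, 0; 0, 0, 0, 0; 1, 0, 0, 0; 0, 1, 0, 0])
    (by
      have h2 : (1 : k) + 1 = 0 := two_zero (k := k) 1
      intro i j
      fin_cases i <;> fin_cases j <;> ext a b <;> fin_cases a <;> fin_cases b <;>
        simp [Fin.sum_univ_three, Matrix.mul_apply, Fin.sum_univ_four, h2])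
    (by
      intro i
      fin_cases i <;> ext a b <;> fin_cases a <;> fin_cases b <;>
        simp [Fin.sum_univ_three, Matrix.mul_apply, Fin.sum_univ_four])

/-- the coordinates used to see that `E` has dimension at least 8 -/
noncomputable def coords (k : Type) [Field k] [CharP k 2] : U (dE k) →ₗ[k] (Fin 8 → k) where
  toFun e := ![rho1 k e 0 0, rho1 k e 0 1, rho1 k e 1 0, rho1 k e 1 1,
    rho2 k e 0 0, rho2 k e 1 0, rho2 k e 2 0, rho2 k e 3 0]
  map_add' a b := by
    ext i
    fin_cases i <;> simp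
  map_smul' r a := by
    ext i
    fin_cases i <;> simp

lemma rho1_x : rho1 k (z (dE k) 0) = !![1, 0; 0, 1] := by
  rw [rho1, lift_z]; simp

lemma rho1_y : rho1 k (z (dE k) 1) = !![0, 1; 0, 0] := by
  rw [rho1, lift_z]; simp

lemma rho1_m : rho1 k (z (dE k) 2) = !![0, 0; 1, 0] := by
  rw [rho1, lift_z]; simp

lemma rho2_x : rho2 k (z (dE k) 0) = 0 := by
  rw [rho2, lift_z]; simp

lemma rho2_y : rho2 k (z (dE k) 1) = !![0, 0, 0, 0; 1, 0, 0, 0; 0, 0, 0, 0; 0, 0, 1, 0] := by
  rw [rho2, lift_z]; simp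

lemma rho2_m : rho2 k (z (dE k) 2) = !![0, 0, 0, 0; 0, 0, 0, 0; 1, 0, 0, 0; 0, 1, 0, 0] := by
  rw [rho2, lift_z]; simp

lemma coords_surj : Function.Surjective (coords k) := by
  rw [← LinearMap.range_eq_top, eq_top_iff, ← (Pi.basisFun k (Fin 8)).span_eq,
    Submodule.span_le]
  rintro _ ⟨l, rfl⟩
  rw [Pi.basisFun_apply]
  set x := z (dE k) 0 with hx
  set y := z (dE k) 1 with hy
  set m := z (dE k) 2 with hm
  have h2 : (1 : k) + 1 = 0 := two_zero (k := k) 1
  fin_cases l
  · refine ⟨x * y * m, ?_⟩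
    ext i
    fin_cases i <;> simp [coords, rho1_x, rho1_y, rho1_m, rho2_x, rho2_y, rho2_m, hx, hy, hm]
  · refine ⟨x * y, ?_⟩
    ext i
    fin_cases i <;> simp [coords, rho1_x, rho1_y, rho1_m, rho2_x, rho2_y, rho2_m, hx, hy, hm]
  · refine ⟨x * m, ?_⟩
    ext i
    fin_cases i <;> simp [coords, rho1_x, rho1_y, rho1_m, rho2_x, rho2_y, rho2_m, hx, hy, hm]
  · refine ⟨x + x * y * m, ?_⟩
    ext i
    fin_cases i <;> simp [coords, rho1_x, rho1_y, rho1_m, rho2_x, rho2_y, rho2_m, hx, hy, hm, h2]
  · refine ⟨1 + x, ?_⟩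
    ext i
    fin_cases i <;> simp [coords, rho1_x, rho1_y, rho1_m, rho2_x, rho2_y, rho2_m, hx, hy, hm, h2]
  · refine ⟨y + x * y, ?_⟩
    ext i
    fin_cases i <;> simp [coords, rho1_x, rho1_y, rho1_m, rho2_x, rho2_y, rho2_m, hx, hy, hm, h2]
  · refine ⟨m + x * m, ?_⟩
    ext i
    fin_cases i <;> simp [coords, rho1_x, rho1_y, rho1_m, rho2_x, rho2_y, rho2_m, hx, hy, hm, h2]
  · refine ⟨y * m + x * y * m, ?_⟩
    ext i
    fin_cases i <;> simp [coords, rho1_x, rho1_y, rho1_m, rho2_x, rho2_y, rho2_m, hx, hy, hm, h2,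
      Matrix.mul_apply, Fin.sum_univ_four]

instance E_fin : Module.Finite k (U (dE k)) := Module.Finite.of_surjective (mu (0 : k)) (mu_surj 0)

lemma E_rank : 8 ≤ Module.finrank k (U (dE k)) := by
  have := LinearMap.finrank_le_finrank_of_surjective (coords_surj (k := k))
  simpa using this

lemma mu_bij (β : k) : Function.Bijective (mu β) := by
  refine ⟨?_, mu_surj β⟩
  have h1 : Module.finrank k (U (dA k) ⊗[k] U (dH β)) ≤ 8 := by
    rw [Module.finrank_tensorProduct]
    calc _ ≤ 2 * 4 := Nat.mul_le_mul A_rank (H_rank β)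
      _ = 8 := by norm_num
  have h2 : Module.finrank k (U (dE k)) ≤ Module.finrank k (U (dA k) ⊗[k] U (dH β)) :=
    LinearMap.finrank_le_finrank_of_surjective (mu_surj β)
  have h3 : Module.finrank k (U (dA k) ⊗[k] U (dH β)) = Module.finrank k (U (dE k)) :=
    le_antisymm (h1.trans E_rank) h2
  exact (LinearMap.injective_iff_surjective_of_finrank_eq_finrank h3).mpr (mu_surj β)

lemma complement (β : k) : IsComplement (iBi k) (jBi β) := by
  have hb := mu_bij β
  refine ⟨?_, ?_, hb⟩
  · intro a a' h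
    have h1 : mu β (a ⊗ₜ 1) = mu β (a' ⊗ₜ 1) := by
      rw [mu_tmul, mu_tmul, map_one]
      congr 1
    have h2 := hb.1 h1
    have : Nontrivial (U (dH β)) := by
      refine ⟨⟨0, 1, fun h => ?_⟩⟩
      have := congrArg counitU h
      rw [map_zero, map_one] at this
      exact zero_ne_one this
    exact Algebra.TensorProduct.includeLeft_injective (R := k) (S := k) (A := U (dA k))
      (B := U (dH β)) (algebraMap k (U (dH β))).injective h2
  · intro a a' h
    have h1 : mu β (1 ⊗ₜ a) = mu β (1 ⊗ₜ a') := by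
      rw [mu_tmul, mu_tmul, map_one]
      congr 1
    have h2 := hb.1 h1
    have : Nontrivial (U (dA k)) := by
      refine ⟨⟨0, 1, fun h => ?_⟩⟩
      have := congrArg counitU h
      rw [map_zero, map_one] at this
      exact zero_ne_one this
    exact Algebra.TensorProduct.includeRight_injective (R := k) (A := U (dA k))
      (B := U (dH β)) (algebraMap k (U (dA k))).injective h2

/-- An algebra isomorphism `H β ≃ H γ`, with `γ` not a square, forces `β = a ^ 2 + b ^ 2 γ`. -/
lemma iso_imp (β γ : k) (hγ : ∀ a : k, a ^ 2 ≠ γ) (f : U (dH β) ≃ₐ[k] U (dH γ)) :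
    ∃ a b : k, β = a ^ 2 + b ^ 2 * γ := by
  let L := AlgebraicClosure k
  obtain ⟨s, hs⟩ := IsAlgClosed.exists_pow_nat_eq (algebraMap k L γ) (n := 2) (by norm_num)
  have two : ∀ v : L, v + v = 0 := fun v => two_zero (k := k) v
  let π : U (dH γ) →ₐ[k] L := lift (fun i => if i = 0 then 1 else s)
    (by intro i j; fin_cases i <;> fin_cases j <;> simp [two])
    (by
      intro i
      fin_cases i
      · simp
      · simp [← sq, hs, Algebra.smul_def])
  have π0 : π (z (dH γ) 0) = 1 := by
    change lift _ _ _ _ = _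
    rw [lift_z]; simp
  have π1 : π (z (dH γ) 1) = s := by
    change lift _ _ _ _ = _
    rw [lift_z]; simp
  have him : ∀ w, ∃ a b : k, π w = algebraMap k L a + algebraMap k L b * s := by
    intro w
    induction w using induct with
    | ha r => exact ⟨r, 0, by rw [AlgHom.commutes]; simp⟩
    | hz i =>
      fin_cases i
      · exact ⟨1, 0, by change π (z (dH γ) 0) = _; rw [π0]; simp⟩
      · exact ⟨0, 1, by change π (z (dH γ) 1) = _; rw [π1]; simp⟩
    | hm u v hu hv =>
      obtain ⟨a, b, hab⟩ := hu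
      obtain ⟨c, d, hcd⟩ := hv
      refine ⟨a * c + b * d * γ, a * d + b * c, ?_⟩
      rw [map_mul, hab, hcd]
      simp only [map_add, map_mul]
      rw [← hs]
      ring
    | hp u v hu hv =>
      obtain ⟨a, b, hab⟩ := hu
      obtain ⟨c, d, hcd⟩ := hv
      refine ⟨a + c, b + d, ?_⟩
      rw [map_add, hab, hcd, map_add, map_add]
      ring
  set g : U (dH β) →ₐ[k] L := π.comp f.toAlgHom with hg
  have gx : g (z (dH β) 0) * g (z (dH β) 0) = g (z (dH β) 0) := by
    rw [← map_mul, H_xx]
  have gz : g (z (dH β) 1) * g (z (dH β) 1) = algebraMap k L β * g (z (dH β) 0) := by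
    rw [← map_mul, H_zz, map_smul, Algebra.smul_def]
  have hinj : Function.Injective (algebraMap k L) := (algebraMap k L).injective
  have hx01 : g (z (dH β) 0) = 0 ∨ g (z (dH β) 0) = 1 := by
    have : g (z (dH β) 0) * (g (z (dH β) 0) - 1) = 0 := by
      rw [mul_sub, gx, mul_one, sub_self]
    rcases mul_eq_zero.mp this with h | h
    · exact Or.inl h
    · exact Or.inr (sub_eq_zero.mp h)
  rcases hx01 with h0 | h1
  · exfalso
    rw [h0, mul_zero] at gz
    have gz0 : g (z (dH β) 1) = 0 := mul_self_eq_zero.mp gz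
    have hall : ∀ w, ∃ a : k, g w = algebraMap k L a := by
      intro w
      induction w using induct with
      | ha r => exact ⟨r, AlgHom.commutes _ _⟩
      | hz i =>
        fin_cases i
        · exact ⟨0, by change g (z (dH β) 0) = _; rw [h0, map_zero]⟩
        · exact ⟨0, by change g (z (dH β) 1) = _; rw [gz0, map_zero]⟩
      | hm u v hu hv =>
        obtain ⟨a, ha⟩ := hu
        obtain ⟨b, hb⟩ := hv
        exact ⟨a * b, by rw [map_mul, ha, hb, map_mul]⟩
      | hp u v hu hv =>
        obtain ⟨a, ha⟩ := hu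
        obtain ⟨b, hb⟩ := hv
        exact ⟨a + b, by rw [map_add, ha, hb, map_add]⟩
    obtain ⟨a, ha⟩ := hall (f.symm (z (dH γ) 1))
    have h2 : g (f.symm (z (dH γ) 1)) = s := by
      rw [hg, ← π1]
      simp
    rw [h2] at ha
    apply hγ a
    apply hinj
    rw [map_pow, ← ha, hs]
  · obtain ⟨a, b, hab⟩ := him (f (z (dH β) 1))
    have h2 : g (z (dH β) 1) = algebraMap k L a + algebraMap k L b * s := hab
    rw [h1, mul_one, h2] at gz
    refine ⟨a, b, hinj ?_⟩
    rw [← gz]
    simp only [map_add, map_mul, map_pow]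
    rw [← hs]
    linear_combination (two (algebraMap k L a * algebraMap k L b * s))

end specific

section field

open MvPolynomial

/-- the ground field -/
abbrev KK : Type := FractionRing (MvPolynomial ℕ (ZMod 2))

lemma two_P (p : MvPolynomial ℕ (ZMod 2)) : 2 * p = 0 := by
  have : (2 : MvPolynomial ℕ (ZMod 2)) = 0 := CharTwo.two_eq_zero
  rw [this, zero_mul]

instance : CharP KK 2 := IsFractionRing.charP_of_isFractionRing (MvPolynomial ℕ (ZMod 2)) 2

/-- the parameters -/
noncomputable def par (n : ℕ) : KK := algebraMap (MvPolynomial ℕ (ZMod 2)) KK (X n)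

lemma par_indep (i j : ℕ) (hij : i ≠ j) (a b : KK) : par i ≠ a ^ 2 + b ^ 2 * par j := by
  intro h
  obtain ⟨A, D1, hD1, rfl⟩ := IsFractionRing.div_surjective (A := MvPolynomial ℕ (ZMod 2)) a
  obtain ⟨B, D2, hD2, rfl⟩ := IsFractionRing.div_surjective (A := MvPolynomial ℕ (ZMod 2)) b
  have n1 : algebraMap (MvPolynomial ℕ (ZMod 2)) KK D1 ≠ 0 :=
    IsFractionRing.to_map_ne_zero_of_mem_nonZeroDivisors hD1
  have n2 : algebraMap (MvPolynomial ℕ (ZMod 2)) KK D2 ≠ 0 :=
    IsFractionRing.to_map_ne_zero_of_mem_nonZeroDivisors hD2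
  have h1 : algebraMap (MvPolynomial ℕ (ZMod 2)) KK ((D1 * D2) ^ 2 * X i)
      = algebraMap (MvPolynomial ℕ (ZMod 2)) KK ((A * D2) ^ 2 + (B * D1) ^ 2 * X j) := by
    simp only [map_add, map_mul, map_pow]
    unfold par at h
    rw [h]
    field_simp
  have h2 := IsFractionRing.injective (MvPolynomial ℕ (ZMod 2)) KK h1
  have h3 := congrArg (pderiv i) h2
  have e : ∀ p : MvPolynomial ℕ (ZMod 2), pderiv i (p ^ 2) = 0 := by
    intro p
    rw [sq, Derivation.leibniz, smul_eq_mul, ← two_mul, two_P]
  rw [map_add, Derivation.leibniz, Derivation.leibniz, e, e, e, pderiv_X_self,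
    pderiv_X_of_ne (Ne.symm hij)] at h3
  simp only [smul_eq_mul, mul_one, mul_zero, add_zero] at h3
  have h4 : D1 * D2 = 0 := pow_eq_zero_iff (by norm_num) |>.mp h3
  rcases mul_eq_zero.mp h4 with h5 | h5
  · exact n1 (by rw [h5, map_zero])
  · exact n2 (by rw [h5, map_zero])

end field

open Q3.PrimHopf in
/-- There are a field `k`, a finite-dimensional Hopf algebra `E` with a Hopf subalgebra `A` (the
image of `i`) and infinitely many pairwise non-isomorphic Hopf algebras `H n`, each of which
embeds in `E` as an `A`-complement. -/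
theorem result : ∃ (k : Type) (_ : Field k) (A E : Type) (_ : Ring A) (_ : HopfAlgebra k A)
    (_ : Ring E) (_ : HopfAlgebra k E) (i : BialgHom k A E) (H : ℕ → Type)
    (_ : ∀ n, Ring (H n)) (_ : ∀ n, HopfAlgebra k (H n)) (j : ∀ n, BialgHom k (H n) E),
    FiniteDimensional k E ∧ (∀ n, IsComplement i (j n)) ∧
      ∀ n n', n ≠ n' → IsEmpty (BialgEquiv k (H n) (H n')) := by
  refine ⟨KK, inferInstance, U (dA KK), U (dE KK), inferInstance, inferInstance, inferInstance,
    inferInstance, iBi KK, fun n => U (dH (par n)), fun n => inferInstance,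
    fun n => inferInstance, fun n => jBi (par n), inferInstance, fun n => complement (par n), ?_⟩
  intro n n' hnn'
  refine ⟨fun f => ?_⟩
  obtain ⟨a, b, hab⟩ := iso_imp (par n) (par n')
    (fun a h => par_indep n' (n' + 1) (Nat.lt_succ_self _).ne a 0 (by rw [← h]; ring))
    (AlgEquivClass.toAlgEquiv f)
  exact par_indep n n' hnn' a b hab

end Pool.Agent.Results.MP_d8e1db_al.InfiniteIndex
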